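import Pool.Agent.TwoWell.GFinal

set_option autoImplicit false

namespace Pool.Agent.Results.MP_393ee6_an.TwoPhaseGap

/-- For `n = 12` there are a volume fraction `f` and two self-adjoint positive definite tensors
`L1`, `L2` such that some element of the `G`-closure `G_f(L1, L2)` is not in the lamination closure
`G^L_f(L1, L2)`; in particular the two closures differ. -/
theorem result : ∃ (f : ℝ) (L1 L2 : GClosure.Tens 12), 0 ≤ f ∧ f ≤ 1 ∧ L1.PosDef ∧ L2.PosDef ∧
    ∃ Ls : GClosure.Tens 12, Ls ∈ GClosure.Gf f L1 L2 ∧ Ls ∉ GClosure.GLf f L1 L2 :=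
  GClosure.two_phase_gap

end Pool.Agent.Results.MP_393ee6_an.TwoPhaseGap
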